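import Pool.Agent.helper62.VD.SpecE2

/-!
# Row vde:SBF (MP_07c750_an): the abstract structure on the unit shell
-/

set_option autoImplicit false

open MeasureTheory Filter Set Topology
open scoped ENNReal ContDiff InnerProductSpace

namespace Pool.Agent.VDE

open VD

section

variable {d : ℕ} {G : V d → V d →L[ℝ] V d}

/-- the measure of a set in the shell -/
theorem SBF_comap (hcl : IsClosed {p : P d | nrm G p = 1}) (A : Set {p : P d // nrm G p = 1}) :
    (liou G).comap Subtype.val A = liou G (Subtype.val '' A) :=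
  MeasurableEmbedding.comap_apply (MeasurableEmbedding.subtype_coe hcl.measurableSet) _ _

theorem SBF_inter (h0 : liou G {p : P d | nrm G p ≠ 1} = 0) (B : Set (P d)) :
    liou G (B ∩ {p : P d | nrm G p = 1}) = liou G B := by
  apply le_antisymm (measure_mono inter_subset_left)
  have h1 : B ⊆ (B ∩ {p : P d | nrm G p = 1}) ∪ {p : P d | nrm G p ≠ 1} := by
    intro p hp
    by_cases h : nrm G p = 1
    · exact Or.inl ⟨hp, h⟩
    · exact Or.inr h
  calc liou G B ≤ liou G ((B ∩ {p : P d | nrm G p = 1}) ∪ {p : P d | nrm G p ≠ 1}) := measure_mono h1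
    _ ≤ liou G (B ∩ {p : P d | nrm G p = 1}) + liou G {p : P d | nrm G p ≠ 1} := measure_union_le _ _
    _ = liou G (B ∩ {p : P d | nrm G p = 1}) := by rw [h0, add_zero]

theorem SBF_mp (hcl : IsClosed {p : P d | nrm G p = 1}) (h0 : liou G {p : P d | nrm G p ≠ 1} = 0)
    (g : P d → P d) (g' : {p : P d // nrm G p = 1} → {p : P d // nrm G p = 1})
    (hg' : Measurable g') (hgg : ∀ x, (g' x).1 = g x.1) (hg : MeasurePreserving g (liou G) (liou G)) :
    MeasurePreserving g' ((liou G).comap Subtype.val) ((liou G).comap Subtype.val) := by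
  refine ⟨hg', ?_⟩
  ext A hA
  rw [Measure.map_apply hg' hA, SBF_comap hcl, SBF_comap hcl]
  have hB : MeasurableSet (Subtype.val '' A) :=
    (MeasurableEmbedding.subtype_coe hcl.measurableSet).measurableSet_image.2 hA
  have h1 : (Subtype.val '' (g' ⁻¹' A) : Set (P d)) = (g ⁻¹' (Subtype.val '' A)) ∩ {p : P d | nrm G p = 1} := by
    ext p
    constructor
    · rintro ⟨x, hx, rfl⟩
      exact ⟨⟨g' x, hx, hgg x⟩, x.2⟩
    · rintro ⟨⟨y, hy, hyp⟩, hp⟩
      refine ⟨⟨p, hp⟩, ?_, rfl⟩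
      have h2 : g' ⟨p, hp⟩ = y := Subtype.ext ((hgg ⟨p, hp⟩).trans hyp.symm)
      show g' ⟨p, hp⟩ ∈ A
      rw [h2]
      exact hy
  rw [h1, SBF_inter h0, hg.measure_preimage hB.nullMeasurableSet]

end

theorem SBF_cnt (d : ℕ) (Γ : Type) [Group Γ] [MulAction Γ (V d)] (K : Set (V d)) (h : FdK Γ K) : Countable Γ := by
  rw [← Set.countable_univ_iff]
  have h1 : (Set.univ : Set Γ) ⊆ ⋃ n : ℕ, {γ : Γ | ∃ x ∈ Metric.closedBall (0 : V d) n, γ • x ∈ Metric.closedBall (0 : V d) n} := by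
    intro γ _
    obtain ⟨n, hn⟩ := exists_nat_ge ‖γ • (0 : V d)‖
    refine mem_iUnion.2 ⟨n, 0, ?_, ?_⟩
    · exact Metric.mem_closedBall_self (Nat.cast_nonneg n)
    · rw [mem_closedBall_zero_iff]
      exact hn
  exact (Set.countable_iUnion fun n => (h.proper _ (isCompact_closedBall _ _)).countable).mono h1

theorem SBF_proof (h1 : SNM_stmt) (h2 : SLF_stmt) (h3 : SLP_stmt) (h4 : SLI_stmt) : SBF_stmt := by
  intro d Γ _ _ K F0 G Φ C dd hd h
  obtain ⟨hnc, -, -, -, hcomp⟩ := h1 d G h.met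
  obtain ⟨-, -, h0⟩ := h2 d G h.met
  obtain ⟨hpos, hfin⟩ := h3 d G h.met
  obtain ⟨hflow, hlft⟩ := h4 d Γ K F0 G Φ C dd hd h
  have hcl : IsClosed {p : P d | nrm G p = 1} := isClosed_eq hnc continuous_const
  let act : MulAction Γ {p : P d // nrm G p = 1} :=
    { smul := fun γ x => ⟨lft γ x.1, (h.ln γ x.1).trans x.2⟩
      one_smul := fun x => Subtype.ext (h.one x.1)
      mul_smul := fun γ γ' x => Subtype.ext (h.mul γ γ' x.1) }
  have hsm : ∀ (γ : Γ) (x : {p : P d // nrm G p = 1}), (γ • x).1 = lft γ x.1 := fun γ x => rfl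
  have hact : ∀ γ : Γ, Continuous (fun x : {p : P d // nrm G p = 1} => γ • x) := fun γ =>
    ((h.lc γ).comp continuous_subtype_val).subtype_mk _
  refine ⟨act, fun t x => ⟨Φ t x.1, (h.fn t x.1).trans x.2⟩, hsm, fun t x => rfl, ?_⟩
  have hΦc : Continuous fun q : ℝ × P d => Φ q.1 q.2 := h.flow.smooth.continuous
  have hfc : ∀ t : ℝ, Continuous (fun x : {p : P d // nrm G p = 1} =>
      (⟨Φ t x.1, (h.fn t x.1).trans x.2⟩ : {p : P d // nrm G p = 1})) := fun t =>
    (hΦc.comp (continuous_const.prodMk continuous_subtype_val)).subtype_mk _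
  have hmeasF : Measurable (fun x : {p : P d // nrm G p = 1} => x.1.1) := measurable_subtype_coe.fst
  exact {
    cnt := SBF_cnt d Γ K h.fdk
    act := hact
    mact := fun γ => SBF_mp hcl h0 (lft γ) _ (hact γ).measurable (hsm γ) (hlft γ)
    uniq := fun x => h.fdx.uniq x.1.1
    meas := hmeasF h.fdx.meas
    fin := by
      rw [SBF_comap hcl]
      refine lt_of_le_of_lt (measure_mono ?_) (hfin K h.fdk.compact)
      rintro p ⟨x, hx, rfl⟩
      exact h.fdx.sub hx
    cpt := by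
      refine ⟨?_, fun x hx => h.fdx.sub hx⟩
      have h5 := hcl.isClosedEmbedding_subtypeVal.isCompact_preimage (hcomp K h.fdk.compact 1)
      have h6 : {x : {p : P d // nrm G p = 1} | x.1.1 ∈ K} =
          (Subtype.val ⁻¹' {p : P d | p.1 ∈ K ∧ nrm G p ≤ 1} : Set {p : P d // nrm G p = 1}) := by
        ext x
        exact ⟨fun hx => ⟨hx, x.2.le⟩, fun hx => hx.1⟩
      rw [h6]
      exact h5
    dc := h.dis.cont.comp ((continuous_subtype_val.comp continuous_fst).prodMk
      (continuous_subtype_val.comp continuous_snd))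
    d0 := fun x y => h.dis.nn _ _
    dz := fun x => h.dis.zero _
    ds := fun x y => h.dis.symm _ _
    dt := fun x y z => h.dis.tri _ _ _
    di := fun γ x y => h.dis.inv γ x.1 y.1
    dn := by
      intro x U hU hx
      obtain ⟨γ, hγ⟩ := h.fdk.cover x.1.1
      have hU' : IsOpen ((fun y : {p : P d // nrm G p = 1} => γ⁻¹ • y) ⁻¹' U) := hU.preimage (hact γ⁻¹)
      obtain ⟨W, hW, hWU⟩ := isOpen_induced_iff.1 hU'
      have hxW : lft γ x.1 ∈ W := by
        have h5 : γ • x ∈ (fun y : {p : P d // nrm G p = 1} => γ⁻¹ • y) ⁻¹' U := by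
          show γ⁻¹ • γ • x ∈ U
          rw [inv_smul_smul]
          exact hx
        rw [← hWU] at h5
        exact h5
      obtain ⟨η, hη, hηW⟩ := Metric.isOpen_iff.1 hW _ hxW
      refine ⟨min (1 / 2) (η / (|C| + 1)), lt_min (by norm_num) (by positivity), ?_⟩
      intro y hy
      have hy1 : dd x.1 y.1 < 1 / 2 := lt_of_lt_of_le hy (min_le_left _ _)
      have hy2 : dd x.1 y.1 < η / (|C| + 1) := lt_of_lt_of_le hy (min_le_right _ _)
      have hinv : dd (lft γ x.1) (lft γ y.1) = dd x.1 y.1 := h.dis.inv γ x.1 y.1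
      have hn1 : nrm G (lft γ x.1) ≤ 2 := by rw [h.ln, x.2]; norm_num
      have hn2 : nrm G (lft γ y.1) ≤ 2 := by rw [h.ln, y.2]; norm_num
      have h6 := h.dis.lo (lft γ x.1) (lft γ y.1) hγ hn1 hn2 (by rw [hinv]; exact hy1.le)
      rw [hinv] at h6
      have h7 : lft γ y.1 ∈ Metric.ball (lft γ x.1) η := by
        rw [Metric.mem_ball, dist_comm, dist_eq_norm]
        refine lt_of_le_of_lt h6 ?_
        calc C * dd x.1 y.1 ≤ |C| * dd x.1 y.1 := mul_le_mul_of_nonneg_right (le_abs_self C) (h.dis.nn _ _)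
          _ ≤ |C| * (η / (|C| + 1)) := mul_le_mul_of_nonneg_left hy2.le (abs_nonneg C)
          _ < (|C| + 1) * (η / (|C| + 1)) := mul_lt_mul_of_pos_right (by linarith) (by positivity)
          _ = η := mul_div_cancel₀ η (by positivity)
      have h8 : γ • y ∈ (Subtype.val ⁻¹' W : Set {p : P d // nrm G p = 1}) := hηW h7
      rw [hWU] at h8
      have h9 : γ⁻¹ • γ • y ∈ U := h8
      rwa [inv_smul_smul] at h9
    fc := by
      have hL : IsCompact (Metric.cthickening (|C| / 2) K) := h.fdk.compact.cthickening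
      have hfin2 := h.fdk.proper _ hL
      have key : ∀ y : {p : P d // nrm G p = 1}, y.1.1 ∈ K → ∀ γ : Γ, dd (lft γ y.1) y.1 ≤ 1 / 2 →
          γ ∈ {γ : Γ | ∃ x ∈ Metric.cthickening (|C| / 2) K, γ • x ∈ Metric.cthickening (|C| / 2) K} := by
        intro y hy γ hγ
        rw [h.dis.symm] at hγ
        have hn1 : nrm G y.1 ≤ 2 := by rw [y.2]; norm_num
        have hn2 : nrm G (lft γ y.1) ≤ 2 := by rw [h.ln, y.2]; norm_num
        have h5 := h.dis.lo y.1 (lft γ y.1) hy hn1 hn2 hγ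
        have h6 : ‖y.1.1 - γ • y.1.1‖ ≤ |C| / 2 := by
          calc ‖y.1.1 - γ • y.1.1‖ = ‖(y.1 - lft γ y.1).1‖ := rfl
            _ ≤ ‖y.1 - lft γ y.1‖ := norm_fst_le _
            _ ≤ C * dd y.1 (lft γ y.1) := h5
            _ ≤ |C| * dd y.1 (lft γ y.1) := mul_le_mul_of_nonneg_right (le_abs_self C) (h.dis.nn _ _)
            _ ≤ |C| * (1 / 2) := mul_le_mul_of_nonneg_left hγ (abs_nonneg C)
            _ = |C| / 2 := by ring
        refine ⟨y.1.1, Metric.self_subset_cthickening _ hy, ?_⟩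
        refine Metric.mem_cthickening_of_dist_le _ y.1.1 _ _ hy ?_
        rw [dist_comm, dist_eq_norm]
        exact h6
      refine ⟨{γ : Γ | ∃ x ∈ Metric.cthickening (|C| / 2) K, γ • x ∈ Metric.cthickening (|C| / 2) K}.ncard + 1,
        by omega, fun x => ?_⟩
      obtain ⟨δ, hδ⟩ := h.fdk.cover x.1.1
      have hmap : ∀ γ ∈ {γ : Γ | dd (γ • x).1 x.1 ≤ 1 / 2}, δ * γ * δ⁻¹ ∈
          {γ : Γ | ∃ x ∈ Metric.cthickening (|C| / 2) K, γ • x ∈ Metric.cthickening (|C| / 2) K} := by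
        intro γ hγ
        refine key (δ • x) hδ _ ?_
        have h5 : (lft (δ * γ * δ⁻¹) (δ • x).1 : P d) = lft δ (γ • x).1 := by
          have h6 : (δ * γ * δ⁻¹) • (δ • x) = δ • (γ • x) := by
            rw [← mul_smul, ← mul_smul]
            congr 1
            group
          exact congrArg Subtype.val h6
        rw [h5]
        have h7 : dd (lft δ (γ • x).1) (δ • x).1 = dd (γ • x).1 x.1 := h.dis.inv δ (γ • x).1 x.1
        rw [h7]
        exact hγ
      have hinj : Set.InjOn (fun γ : Γ => δ * γ * δ⁻¹) {γ : Γ | dd (γ • x).1 x.1 ≤ 1 / 2} := by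
        intro a _ b _ hab
        simpa using hab
      have hfx : {γ : Γ | dd (γ • x).1 x.1 ≤ 1 / 2}.Finite :=
        Set.Finite.of_finite_image (hfin2.subset (by rintro _ ⟨γ, hγ, rfl⟩; exact hmap γ hγ)) hinj
      refine ⟨hfx, ?_⟩
      have h8 := Set.ncard_le_ncard_of_injOn (fun γ : Γ => δ * γ * δ⁻¹) hmap hinj hfin2
      omega
    pos := by
      intro U hU hne
      obtain ⟨W, hW, hWU⟩ := isOpen_induced_iff.1 hU
      rw [SBF_comap hcl]
      have h5 : (Subtype.val '' U : Set (P d)) = W ∩ {p : P d | nrm G p = 1} := by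
        rw [← hWU]
        ext p
        constructor
        · rintro ⟨x, hx, rfl⟩
          exact ⟨hx, x.2⟩
        · rintro ⟨hp, hp1⟩
          exact ⟨⟨p, hp1⟩, hp, rfl⟩
      rw [h5, SBF_inter h0]
      obtain ⟨x, hx⟩ := hne
      rw [← hWU] at hx
      exact hpos W hW ⟨x.1, hx, x.2⟩
    f0 := fun x => Subtype.ext (h.flow.zero x.1)
    fa := fun s t x => Subtype.ext (h.flow.add s t x.1)
    fcn := (hΦc.comp (continuous_fst.prodMk (continuous_subtype_val.comp continuous_snd))).subtype_mk _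
    fe := fun γ t x => Subtype.ext (h.fe γ t x.1)
    fm := fun t => SBF_mp hcl h0 (Φ t) _ (hfc t).measurable (fun x => rfl) (hflow t) }

end Pool.Agent.VDE
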